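import Pool.Agent.Q150.TP.ASM
import Pool.Agent.Q150.TP.CNT
import Pool.Agent.Q150.TP.COS
import Pool.Agent.Q24.TP.PSP
import Pool.Agent.Q65.TP.TOG

/-!
# Assembly of project TP
-/

set_option autoImplicit false

open scoped Classical

noncomputable section

namespace Pool.Agent.Q17.TP

open Pool.Agent.H254R3.IN (IsIrr pPrimePart)
open Pool.Agent.Y63.KR Pool.Agent.Q17.WR Pool.Agent.Q18.KRX

theorem asm : S_ASM := Pool.Agent.Q150.TP.t_ASM Pool.Agent.Q150.TP.t_CNT Pool.Agent.Q150.TP.t_COS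
  Pool.Agent.Q65.TP.t_TOG

/-- an automorphism acts on the roots of unity of given order as a power -/
lemma exp_of (s : ℂ ≃+* ℂ) (n : ℕ) (hn : 0 < n) : ∃ m : ℕ, ∀ ζ : ℂ, ζ ^ n = 1 → s ζ = ζ ^ m := by
  have : NeZero n := ⟨hn.ne'⟩
  obtain ⟨z, hz⟩ : ∃ z : ℂ, IsPrimitiveRoot z n := ⟨_, Complex.isPrimitiveRoot_exp n hn.ne'⟩
  have h1 : s z ^ n = 1 := by rw [← map_pow, hz.pow_eq_one, map_one]
  obtain ⟨m, -, hm⟩ := hz.eq_pow_of_pow_eq_one h1
  refine ⟨m, fun ζ hζ => ?_⟩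
  obtain ⟨k, -, rfl⟩ := hz.eq_pow_of_pow_eq_one hζ
  rw [map_pow, ← hm, ← pow_mul, ← pow_mul, mul_comm]

section

variable {E : Type} [Group E]

/-- `(e, s)` fixes the function `θ` on `N` -/
def FixN (N : Subgroup E) (θ : N → ℂ) (e : E) (s : ℂ ≃+* ℂ) : Prop :=
  ∀ n n' : N, (n' : E) = e * n * e⁻¹ → s (θ n') = θ n

/-- the function `θ` on `N` is invariant under `G` -/
def InvG (G N : Subgroup E) (θ : N → ℂ) : Prop :=
  ∀ g ∈ G, ∀ n n' : N, (n' : E) = g * n * g⁻¹ → θ n' = θ n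

theorem main1 [Fintype E] (p : ℕ) [Fact p.Prime] (G N : Subgroup E) [G.Normal] [N.Normal]
    (hNG : N ≤ G) (θ : N → ℂ) (hθ : PSpec p θ) (hi : InvG G N θ) (e : E) (s : ℂ ≃+* ℂ)
    (hf : FixN N θ e s) :
    altQ p G N (fun σ => (wQ G N θ e s σ : ℤ)) = altQ p G N (fun σ => (wQ G N 1 e s σ : ℤ)) := by
  obtain ⟨m, hm⟩ := exp_of s (Nat.card E) Nat.card_pos
  have h1 := asm E p G N hNG θ hθ hi s m hm e hf
  have h2 := asm E p G N hNG 1 (Pool.Agent.Q24.TP.t_PSP p N).2 (fun _ _ _ _ _ => rfl) s m hm e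
    (fun _ _ _ => map_one s)
  have h3 : (Nat.card (Gb G N) : ℤ) ≠ 0 := by
    have : 0 < Nat.card (Gb G N) := Nat.card_pos
    omega
  exact mul_left_cancel₀ h3 (h1.trans h2.symm)

lemma WC_top {Q : Type} [Group Q] (p : ℕ) (K : Set Q) : WC p ⊤ K = W p K := by
  unfold WC W
  refine finsum_congr fun σ => ?_
  congr 2
  refine propext ⟨fun h P hP x hx => h.2 P hP x hx, fun h => ⟨fun _ _ => le_top, fun P hP x hx => ?_⟩⟩
  exact h P hP x hx

/-- the equivariant sum over commuting pairs -/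
lemma rhs_kr {Q : Type} [Group Q] [Finite Q] (p : ℕ) [Fact p.Prime] (m : ℕ)
    (hm : ∀ x : Q, ¬ p ∣ orderOf x → x ^ m = x) :
    (∑ᶠ q : Q × Q, if q.1 ∈ (⊤ : Subgroup Q) ∧ q.2 * (1 : Q)⁻¹ ∈ (⊤ : Subgroup Q) ∧
        q.2 * q.1 ^ m * q.2⁻¹ = q.1 ∧ ¬ p ∣ orderOf q.1 then
      WC p (⊤ : Subgroup Q) {q.1, q.2} else 0) = (Nat.card Q : ℤ) * krSum p Q := by
  have : Fintype Q := Fintype.ofFinite Q
  rw [card_mul_krSum, finsum_eq_sum_of_fintype]
  refine Finset.sum_congr rfl fun q _ => ?_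
  by_cases hp : p ∣ orderOf q.1
  · rw [if_neg (fun h => h.2.2.2 hp)]
    by_cases hc : q.1 * q.2 = q.2 * q.1
    · rw [if_pos hc, ← WC_top]
      refine (Pool.Agent.Q65.TP.t_TOG Q p ⊤ q.1 q.2 1 (Subgroup.mem_top _) (fun _ _ => le_top)
        (Nat.coprime_one_left _) ?_ hp).symm
      rw [pow_one, ← hc, mul_inv_cancel_right]
    · rw [if_neg hc]
  · by_cases hc : q.1 * q.2 = q.2 * q.1
    · rw [if_pos hc, if_pos, WC_top]
      refine ⟨Subgroup.mem_top _, Subgroup.mem_top _, ?_, hp⟩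
      rw [hm _ hp, ← hc, mul_inv_cancel_right]
    · rw [if_neg hc, if_neg]
      rintro ⟨-, -, h, -⟩
      rw [hm _ hp, mul_inv_eq_iff_eq_mul] at h
      exact hc h.symm

lemma Gb_top (N : Subgroup E) [N.Normal] : Gb ⊤ N = ⊤ := by
  unfold Gb
  rw [← MonoidHom.range_eq_map]
  exact MonoidHom.range_eq_top.mpr (QuotientGroup.mk'_surjective N)

theorem main2 [Fintype E] (p : ℕ) [Fact p.Prime] (N : Subgroup E) [N.Normal]
    (θ : N → ℂ) (hθ : PSpec p θ) (hi : InvG ⊤ N θ) (s : ℂ ≃+* ℂ)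
    (hs : ∀ ζ : ℂ, ζ ^ pPrimePart p (Nat.card E) = 1 → s ζ = ζ)
    (hf : ∀ n : N, s (θ n) = θ n) :
    altQ p ⊤ N (fun σ => (wQ ⊤ N θ 1 s σ : ℤ)) = krSum p (E ⧸ N) := by
  obtain ⟨m, hm⟩ := exp_of s (Nat.card E) Nat.card_pos
  have h1 := asm E p ⊤ N le_top θ hθ hi s m hm 1 (fun n n' h => by
    have : n' = n := Subtype.ext (by rw [h, one_mul, inv_one, mul_one])
    rw [this]
    exact hf n)
  have h3 : (Nat.card (E ⧸ N) : ℤ) ≠ 0 := by
    have : 0 < Nat.card (E ⧸ N) := Nat.card_pos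
    omega
  refine mul_left_cancel₀ h3 ?_
  have h4 : (Nat.card (Gb ⊤ N) : ℤ) = (Nat.card (E ⧸ N) : ℤ) := by
    rw [Gb_top, Subgroup.card_top]
  rw [h4] at h1
  rw [h1, ← rhs_kr p m]
  · refine finsum_congr fun q => ?_
    rw [Gb_top]
    by_cases h5 : q.1 ∈ (⊤ : Subgroup (E ⧸ N)) ∧ q.2 * (1 : E ⧸ N)⁻¹ ∈ (⊤ : Subgroup (E ⧸ N)) ∧
        q.2 * q.1 ^ m * q.2⁻¹ = q.1 ∧ ¬ p ∣ orderOf q.1
    · rw [if_pos h5]
      exact if_pos h5
    · rw [if_neg h5]
      exact if_neg h5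
  · intro x hx
    have h5 : 0 < orderOf x := orderOf_pos x
    have h6 : orderOf x ∣ Nat.card E :=
      (orderOf_dvd_natCard x).trans (Subgroup.card_quotient_dvd_card N)
    have h7 : orderOf x ∣ pPrimePart p (Nat.card E) := by
      unfold pPrimePart
      refine Nat.Coprime.dvd_of_dvd_mul_left (m := p ^ (Nat.card E).factorization p) ?_ ?_
      · exact Nat.Coprime.pow_right _ ((Nat.Prime.coprime_iff_not_dvd Fact.out).mpr hx).symm
      · rwa [Nat.ordProj_mul_ordCompl_eq_self]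
    have hz := Complex.isPrimitiveRoot_exp (orderOf x) h5.ne'
    obtain ⟨z, hz⟩ : ∃ z : ℂ, IsPrimitiveRoot z (orderOf x) := ⟨_, hz⟩
    have h8 : ∀ k, orderOf x ∣ k → z ^ k = 1 := fun k hk => by
      obtain ⟨l, rfl⟩ := hk
      rw [pow_mul, hz.pow_eq_one, one_pow]
    have h9 : z ^ m = z ^ 1 := by
      rw [← hm z (h8 _ h6), hs z (h8 _ h7), pow_one]
    have hz0 : z ≠ 0 := hz.ne_zero h5.ne'
    have h10 : m ≡ 1 [MOD orderOf x] := by
      have h11 : (Units.mk0 z hz0) ^ m = (Units.mk0 z hz0) ^ 1 := by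
        ext
        push_cast
        exact h9
      have h12 := pow_eq_pow_iff_modEq.mp h11
      have h13 : orderOf (Units.mk0 z hz0) = orderOf x := by
        rw [← orderOf_units, Units.val_mk0, ← hz.eq_orderOf]
      rwa [h13] at h12
    have h14 := pow_eq_pow_iff_modEq.mpr h10
    rwa [pow_one] at h14

end

section

variable {E : Type} [Group E]

/-- the element `q` of `E/G` fixes the pair `(σ, ψ)`, up to conjugation in `G` -/
def FixQ (G N : Subgroup E) [N.Normal] {σ : Set (Subgroup (E ⧸ N))} (q : E ⧸ G)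
    (ψ : GS G N σ → ℂ) : Prop :=
  ∃ t : E, (t : E ⧸ G) = q ∧ (t : E ⧸ N) ∈ chainStabilizer σ ∧
    ∀ x y : GS G N σ, (y : E) = t * x * t⁻¹ → ψ y = ψ x

/-- the number of the irreducible characters `ψ` of `G_σ` over `θ` such that the stabiliser of
`(σ, ψ)` in `E/G` is `U` -/
def wU (G N : Subgroup E) [G.Normal] [N.Normal] (θ : N → ℂ) (U : Subgroup (E ⧸ G))
    (σ : Set (Subgroup (E ⧸ N))) : ℕ :=
  Nat.card {ψ : GS G N σ → ℂ // IsIrr ψ ∧ OvS N θ ψ ∧ ∀ q : E ⧸ G, FixQ G N q ψ ↔ q ∈ U}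

lemma gs_mem (G N : Subgroup E) [G.Normal] [N.Normal] {σ : Set (Subgroup (E ⧸ N))} {t : E}
    (ht : (t : E ⧸ N) ∈ chainStabilizer σ) {x : E} (hx : x ∈ GS G N σ) :
    t * x * t⁻¹ ∈ GS G N σ := by
  have h1 := Subgroup.mem_inf.mp hx
  refine Subgroup.mem_inf.mpr ⟨Subgroup.Normal.conj_mem inferInstance x h1.1 t, ?_⟩
  have h2 : ((x : E) : E ⧸ N) ∈ chainStabilizer σ := h1.2
  change ((t * x * t⁻¹ : E) : E ⧸ N) ∈ chainStabilizer σ
  rw [QuotientGroup.mk_mul, QuotientGroup.mk_mul, QuotientGroup.mk_inv]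
  exact Subgroup.mul_mem _ (Subgroup.mul_mem _ ht h2) (Subgroup.inv_mem _ ht)

/-- the stabiliser as a subgroup -/
def stQ (G N : Subgroup E) [G.Normal] [N.Normal] {σ : Set (Subgroup (E ⧸ N))}
    (ψ : GS G N σ → ℂ) : Subgroup (E ⧸ G) where
  carrier := {q | FixQ G N q ψ}
  one_mem' := ⟨1, rfl, Subgroup.one_mem _, fun x y h => by
    have : y = x := Subtype.ext (by rw [h, one_mul, inv_one, mul_one])
    rw [this]⟩
  mul_mem' := by
    rintro _ _ ⟨a, rfl, ha, ha'⟩ ⟨b, rfl, hb, hb'⟩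
    refine ⟨a * b, rfl, Subgroup.mul_mem _ ha hb, fun x y h => ?_⟩
    have h1 := hb' x ⟨b * x * b⁻¹, gs_mem G N hb x.2⟩ rfl
    rw [← h1]
    refine ha' _ _ ?_
    rw [h]
    change a * b * x * (a * b)⁻¹ = a * (b * x * b⁻¹) * a⁻¹
    group
  inv_mem' := by
    rintro _ ⟨a, rfl, ha, ha'⟩
    refine ⟨a⁻¹, rfl, Subgroup.inv_mem _ ha, fun x y h => ?_⟩
    refine (ha' y x ?_).symm
    rw [h, inv_inv]
    group

lemma mem_stQ {G N : Subgroup E} [G.Normal] [N.Normal] {σ : Set (Subgroup (E ⧸ N))}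
    {ψ : GS G N σ → ℂ} {q : E ⧸ G} : q ∈ stQ G N ψ ↔ FixQ G N q ψ := Iff.rfl

lemma fixBy_iff {G N : Subgroup E} [G.Normal] [N.Normal] {σ : Set (Subgroup (E ⧸ N))}
    {ψ : GS G N σ → ℂ} {e : E} :
    FixBy G N e (RingEquiv.refl ℂ) ψ ↔ (e : E ⧸ G) ∈ stQ G N ψ := by
  rw [mem_stQ]
  constructor
  · rintro ⟨t, h1, h2, h3⟩
    refine ⟨t, ?_, h2, h3⟩
    rw [eq_comm, QuotientGroup.eq]
    have h4 := Subgroup.Normal.conj_mem inferInstance _ h1 e⁻¹
    rwa [inv_inv, mul_assoc, inv_mul_cancel_right] at h4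
  · rintro ⟨t, h1, h2, h3⟩
    refine ⟨t, ?_, h2, h3⟩
    rw [eq_comm, QuotientGroup.eq] at h1
    have h4 := Subgroup.Normal.conj_mem inferInstance _ h1 e
    rwa [mul_assoc, mul_assoc, mul_inv_cancel_left] at h4

/-- the irreducible characters over `θ` -/
def IrO (G N : Subgroup E) [N.Normal] (θ : N → ℂ) (σ : Set (Subgroup (E ⧸ N))) :
    Set (GS G N σ → ℂ) := {ψ | IsIrr ψ ∧ OvS N θ ψ}

lemma iro_fin [Finite E] (G N : Subgroup E) [N.Normal] (θ : N → ℂ)
    (σ : Set (Subgroup (E ⧸ N))) : (IrO G N θ σ).Finite := by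
  have : Fintype (GS G N σ) := Fintype.ofFinite _
  exact Set.Finite.subset (Pool.Agent.Helper884.IC.irr_finite (G := GS G N σ)) fun ψ h => h.1

/-- the number of the characters whose stabiliser contains a cyclic group is the sum over the
larger subgroups -/
lemma wQ_sum [Finite E] (G N : Subgroup E) [G.Normal] [N.Normal] (θ : N → ℂ) (e : E)
    (σ : Set (Subgroup (E ⧸ N))) [Fintype (Subgroup (E ⧸ G))] :
    wQ G N θ e (RingEquiv.refl ℂ) σ =
      ∑ U : Subgroup (E ⧸ G), if (e : E ⧸ G) ∈ U then wU G N θ U σ else 0 := by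
  have hfin := iro_fin G N θ σ
  have : Fintype (IrO G N θ σ) := hfin.fintype
  have h1 : wQ G N θ e (RingEquiv.refl ℂ) σ =
      (Finset.univ.filter fun ψ : IrO G N θ σ => (e : E ⧸ G) ∈ stQ G N ψ.1).card := by
    rw [← Fintype.card_subtype, ← Nat.card_eq_fintype_card]
    refine Nat.card_congr
      { toFun := fun ψ => ⟨⟨ψ.1, ψ.2.1, ψ.2.2.1⟩, fixBy_iff.mp ψ.2.2.2⟩
        invFun := fun ψ => ⟨ψ.1.1, ψ.1.2.1, ψ.1.2.2, fixBy_iff.mpr ψ.2⟩
        left_inv := fun _ => rfl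
        right_inv := fun _ => rfl }
  have h2 : ∀ U : Subgroup (E ⧸ G), wU G N θ U σ =
      (Finset.univ.filter fun ψ : IrO G N θ σ => stQ G N ψ.1 = U).card := by
    intro U
    rw [← Fintype.card_subtype, ← Nat.card_eq_fintype_card]
    refine Nat.card_congr
      { toFun := fun ψ => ⟨⟨ψ.1, ψ.2.1, ψ.2.2.1⟩, by
          ext q
          exact ψ.2.2.2 q⟩
        invFun := fun ψ => ⟨ψ.1.1, ψ.1.2.1, ψ.1.2.2, fun q => SetLike.ext_iff.mp ψ.2 q⟩
        left_inv := fun _ => rfl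
        right_inv := fun _ => rfl }
  rw [h1, Finset.card_eq_sum_card_fiberwise (f := fun ψ : IrO G N θ σ => stQ G N ψ.1)
    (t := Finset.univ) (fun _ _ => Finset.mem_univ _)]
  refine Finset.sum_congr rfl fun U _ => ?_
  by_cases hU : (e : E ⧸ G) ∈ U
  · rw [if_pos hU, h2]
    congr 1
    ext ψ
    simp only [Finset.mem_filter, Finset.mem_univ, true_and]
    constructor
    · exact fun h => h.2
    · intro h
      rw [h]
      exact ⟨hU, rfl⟩
  · rw [if_neg hU]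
    refine Finset.card_eq_zero.mpr (Finset.filter_eq_empty_iff.mpr fun ψ hψ h => hU ?_)
    rw [← h]
    exact (Finset.mem_filter.mp hψ).2

lemma altQ_sum [Finite E] (p : ℕ) (G N : Subgroup E) [N.Normal] {I : Type} [Fintype I]
    (w : I → Set (Subgroup (E ⧸ N)) → ℤ) :
    altQ p G N (fun σ => ∑ i, w i σ) = ∑ i, altQ p G N (w i) := by
  have : Fintype (Quotient (chQ p G N)) := Fintype.ofFinite _
  unfold altQ
  simp only [finsum_eq_sum_of_fintype]
  rw [Finset.sum_comm]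
  refine Finset.sum_congr rfl fun c _ => ?_
  rw [Finset.mul_sum]

/-- the numbers of pairs with given stabiliser -/
theorem main3 [Fintype E] (p : ℕ) [Fact p.Prime] (G N : Subgroup E) [G.Normal] [N.Normal]
    [hc : IsCyclic (E ⧸ G)] (hNG : N ≤ G) (θ : N → ℂ) (hθ : PSpec p θ) (hi : InvG ⊤ N θ)
    (U : Subgroup (E ⧸ G)) :
    altQ p G N (fun σ => (wU G N θ U σ : ℤ)) = altQ p G N (fun σ => (wU G N 1 U σ : ℤ)) := by
  have : Fintype (Subgroup (E ⧸ G)) := Fintype.ofFinite _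
  have : Finite (E ⧸ G) := inferInstance
  -- strong induction, from the top
  suffices h : ∀ n : ℕ, ∀ U : Subgroup (E ⧸ G), U.index = n →
      altQ p G N (fun σ => (wU G N θ U σ : ℤ)) = altQ p G N (fun σ => (wU G N 1 U σ : ℤ)) from
    h _ U rfl
  intro n
  induction n using Nat.strong_induction_on with
  | _ n ih =>
    intro U hU
    obtain ⟨g, hg⟩ := (Subgroup.isCyclic U).exists_generator
    obtain ⟨e, he⟩ := QuotientGroup.mk_surjective (g : E ⧸ G)
    have hgU : ∀ V : Subgroup (E ⧸ G), (e : E ⧸ G) ∈ V ↔ U ≤ V := by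
      intro V
      rw [he]
      constructor
      · intro h x hx
        obtain ⟨k, hk⟩ := hg ⟨x, hx⟩
        have h1 : x = (g : E ⧸ G) ^ k := by
          have := congrArg Subtype.val hk
          push_cast at this
          exact this.symm
        rw [h1]
        exact V.zpow_mem h k
      · exact fun h => h g.2
    have key : ∀ θ' : N → ℂ, altQ p G N (fun σ => (wQ G N θ' e (RingEquiv.refl ℂ) σ : ℤ)) =
        ∑ V : Subgroup (E ⧸ G), if U ≤ V then altQ p G N (fun σ => (wU G N θ' V σ : ℤ)) else 0 := by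
      intro θ'
      have h1 : (fun σ => (wQ G N θ' e (RingEquiv.refl ℂ) σ : ℤ)) = fun σ =>
          ∑ V : Subgroup (E ⧸ G), if U ≤ V then (wU G N θ' V σ : ℤ) else 0 := by
        funext σ
        rw [wQ_sum]
        push_cast
        refine Finset.sum_congr rfl fun V _ => ?_
        by_cases h : U ≤ V
        · rw [if_pos h, if_pos ((hgU V).mpr h)]
        · rw [if_neg h, if_neg (fun h' => h ((hgU V).mp h'))]
      rw [h1, altQ_sum]
      refine Finset.sum_congr rfl fun V _ => ?_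
      by_cases h : U ≤ V
      · simp only [if_pos h]
      · simp only [if_neg h]
        unfold altQ
        simp
    have h2 := main1 p G N hNG θ hθ (fun g _ => hi g (Subgroup.mem_top g)) e (RingEquiv.refl ℂ)
      (fun n n' h => hi e (Subgroup.mem_top e) n n' h)
    rw [key, key, ← Finset.add_sum_erase _ _ (Finset.mem_univ U),
      ← Finset.add_sum_erase (a := U) Finset.univ (fun V => if U ≤ V then
        altQ p G N (fun σ => (wU G N 1 V σ : ℤ)) else 0) (Finset.mem_univ U),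
      if_pos le_rfl, if_pos le_rfl] at h2
    have h3 : ∑ V ∈ Finset.univ.erase U, (if U ≤ V then
        altQ p G N (fun σ => (wU G N θ V σ : ℤ)) else 0) =
        ∑ V ∈ Finset.univ.erase U, (if U ≤ V then
        altQ p G N (fun σ => (wU G N 1 V σ : ℤ)) else 0) := by
      refine Finset.sum_congr rfl fun V hV => ?_
      by_cases h : U ≤ V
      · rw [if_pos h, if_pos h]
        refine ih V.index ?_ V rfl
        rw [← hU]
        have h4 : U < V := lt_of_le_of_ne h (Finset.ne_of_mem_erase hV).symm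
        exact Subgroup.index_strictAnti h4
      · rw [if_neg h, if_neg h]
    rw [h3] at h2
    exact add_right_cancel h2

end

end Pool.Agent.Q17.TP
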