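import Pool.Agent.Q17.WR.Stm
import Pool.Agent.Q17.TC.Stm

/-!
# Statements of the parts of project TP (alternating sums of characters over an invariant character)

Library: `Pool.Agent.Q17.TC.Stm` (`t_ORT`, `t_LFT`, `t_DEC`, `t_SQ` in `Q277.TC.*`, `t_IRN` in
`Q17.TC.IRN`), `IC.Irr`, `IC.B`, `IC.expand`, `IC.B_irr` in `Helper884.IC.Compl`; `orbit_sum`, `toggle`,
`sum_eq_zero` in `Y63.KR.Basic`; `WC` in `Q17.WR.Stm`; `IsIrr` in `H254R3.IN.Defs`.
-/

set_option autoImplicit false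

open scoped Classical

noncomputable section

namespace Pool.Agent.Q17.TP

open Pool.Agent.H254R3.IN (IsIrr)
open Pool.Agent.Y63.KR Pool.Agent.Q17.WR
open Pool.Agent.Q17.TC (Lf)

section

variable {E : Type} [Group E]

/-- the image of the subgroup `G` in `E/N` -/
abbrev Gb (G N : Subgroup E) [N.Normal] : Subgroup (E ⧸ N) := G.map (QuotientGroup.mk' N)

/-- the stabiliser in `G` of the chain `σ` of subgroups of `E/N` -/
def GS (G N : Subgroup E) [N.Normal] (σ : Set (Subgroup (E ⧸ N))) : Subgroup E :=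
  G ⊓ (chainStabilizer σ).comap (QuotientGroup.mk' N)

/-- chains of nontrivial `p`-subgroups of `G/N` -/
abbrev ChQ (p : ℕ) (G N : Subgroup E) [N.Normal] : Type :=
  {σ : Set (Subgroup (E ⧸ N)) // IsPChain p σ ∧ ∀ P ∈ σ, P ≤ Gb G N}

/-- conjugacy of chains under `G` -/
def chQ (p : ℕ) (G N : Subgroup E) [N.Normal] : Setoid (ChQ p G N) where
  r σ τ := ∃ g ∈ G, τ.1 = conjSub (g : E ⧸ N) '' σ.1
  iseqv :=
    { refl := fun σ => ⟨1, G.one_mem, by
        have : (conjSub ((1 : E) : E ⧸ N)) = id := funext conjSub_one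
        rw [this, Set.image_id]⟩
      symm := by
        rintro σ τ ⟨g, hG, hg⟩
        refine ⟨g⁻¹, G.inv_mem hG, ?_⟩
        rw [hg, ← Set.image_comp]
        have : conjSub ((g⁻¹ : E) : E ⧸ N) ∘ conjSub ((g : E) : E ⧸ N) = id := by
          funext P
          change conjSub ((g⁻¹ : E) : E ⧸ N) (conjSub ((g : E) : E ⧸ N) P) = P
          rw [← conjSub_mul, ← QuotientGroup.mk_mul, inv_mul_cancel, QuotientGroup.mk_one,
            conjSub_one]
        rw [this, Set.image_id]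
      trans := by
        rintro σ τ ρ ⟨g, hG, hg⟩ ⟨h, hG', hh⟩
        refine ⟨h * g, G.mul_mem hG' hG, ?_⟩
        rw [hh, hg, ← Set.image_comp]
        congr 1
        exact (funext fun P => by
          rw [QuotientGroup.mk_mul, conjSub_mul]; rfl).symm }

/-- the alternating sum over representatives of the `G`-classes of the chains of nontrivial
`p`-subgroups of `G/N`, the empty chain included -/
def altQ (p : ℕ) (G N : Subgroup E) [N.Normal] (w : Set (Subgroup (E ⧸ N)) → ℤ) : ℤ :=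
  ∑ᶠ c : Quotient (chQ p G N), (-1) ^ (Quotient.out c).1.ncard * w (Quotient.out c).1

/-- `ψ`, a function on the subgroup `H` of `E`, lies over the function `θ` on `N` -/
def OvS (N : Subgroup E) {H : Subgroup E} (θ : N → ℂ) (ψ : H → ℂ) : Prop :=
  ∑ᶠ n : N, (if h : (n : E) ∈ H then ψ ⟨n, h⟩ else 0) * θ n⁻¹ ≠ 0

/-- the pair `(σ, ψ)` is fixed by `(e, s)` up to conjugation in `G`: there is `t ∈ G e` which
stabilises `σ` with `s (ψ (t x t⁻¹)) = ψ x` for all `x ∈ G_σ` -/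
def FixBy (G N : Subgroup E) [N.Normal] (e : E) (s : ℂ ≃+* ℂ) {σ : Set (Subgroup (E ⧸ N))}
    (ψ : GS G N σ → ℂ) : Prop :=
  ∃ t : E, t * e⁻¹ ∈ G ∧ (t : E ⧸ N) ∈ chainStabilizer σ ∧
    ∀ x y : GS G N σ, (y : E) = t * x * t⁻¹ → s (ψ y) = ψ x

/-- the number of the irreducible characters of `G_σ` over `θ` fixed by `(e, s)` -/
def wQ (G N : Subgroup E) [N.Normal] (θ : N → ℂ) (e : E) (s : ℂ ≃+* ℂ)
    (σ : Set (Subgroup (E ⧸ N))) : ℕ :=
  Nat.card {ψ : GS G N σ → ℂ // IsIrr ψ ∧ OvS N θ ψ ∧ FixBy G N e s ψ}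

/-- `θ` is irreducible, of `p`-power degree and with determinant of `p`-power order -/
def PSpec (p : ℕ) {L : Type} [Group L] (θ : L → ℂ) : Prop :=
  ∃ (W : Type) (_ : AddCommGroup W) (_ : Module ℂ W) (_ : FiniteDimensional ℂ W)
    (ρ : Representation ℂ L W), ρ.IsIrreducible ∧ θ = ρ.character ∧
    (∃ j : ℕ, Module.finrank ℂ W = p ^ j) ∧ ∃ k : ℕ, ∀ n, LinearMap.det (ρ n) ^ p ^ k = 1

/-- the contribution of the pair `(x, z)` -/
def FF (N : Subgroup E) (θ : N → ℂ) (m : ℕ) (x z : E) : ℂ :=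
  θ 1 / (Nat.card N : ℂ) *
    (if h : x⁻¹ * z * x ^ m * z⁻¹ ∈ N then θ ⟨x⁻¹ * z * x ^ m * z⁻¹, h⟩ else 0)

end

/-- JOB PSP. Irreducible characters of `p`-groups, and the trivial character of any group. Proof: the
degree divides `|N|` (in the pool: `Y63.AWC.deg_dvd`, `IsIrr.deg`), and `det (ρ n) ^ |N| =
det (ρ (n ^ |N|)) = 1`. -/
def S_PSP : Prop := ∀ (p : ℕ) [Fact p.Prime] (L : Type) [Group L] [Fintype L],
  (IsPGroup p L → ∀ θ : L → ℂ, IsIrr θ → PSpec p θ) ∧ PSpec p (fun _ : L => (1 : ℂ))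

/-- JOB CNT. The number of fixed characters of `G_σ`. Proof. Put `H = GS G N σ ⊇ N`. (1) For
`a, b ∈ H` the sum of `ψ a * ψ b` over the `ψ ∈ Irr H` over `θ` is
`∑_{h ∈ H} (θ 1 / |N|) θ°(b h a h⁻¹)`, `θ°` the extension of `θ` by zero: the sum over all `ψ` is
the number of `h` with `h a h⁻¹ = b⁻¹` (second orthogonality relation), and
`∑_{n ∈ N} (θ 1 / |N|) θ n⁻¹ ψ(a n)` is `ψ a` if `ψ` is over `θ` and `0` otherwise (`θ` is invariant
under `H`, so the restriction of `ψ` to `N` is a multiple of `θ` if `ψ` is over `θ`: `t_SQ`; the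
element `∑ (θ 1 / |N|) θ n⁻¹ n` is central in the group algebra of `H` and acts as a scalar).
(2) `s (ψ x) = ψ (x ^ m)` for all characters (eigenvalues are `|E|`-th roots of unity). For `t ∈ G e`
which stabilises `σ` the map `ψ ↦ (x ↦ s (ψ (t x t⁻¹)))` permutes the `ψ ∈ Irr H` over `θ`, and the
number of fixed ones is `∑ ψ, |H|⁻¹ ∑_{x ∈ H} ψ (t x ^ m t⁻¹) ψ x⁻¹`, by (1)
`|H|⁻¹ ∑_{x, h ∈ H} FF N θ m x (h t)`. (3) The `t ∈ G e` stabilising `σ` form a coset `H t₀` or the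
empty set, and either all or none of them fix `ψ` (elements of `H` fix the class function `ψ`). So
`|H| wQ = ∑_t |{ψ fixed by t}|`, and for every `z` in the coset there are `|H|` pairs `(t, h)` with
`h t = z`. -/
def S_CNT : Prop := ∀ (E : Type) [Group E] [Fintype E] (G N : Subgroup E) [G.Normal] [N.Normal],
  N ≤ G → ∀ θ : N → ℂ, IsIrr θ → (∀ g ∈ G, ∀ n n' : N, (n' : E) = g * n * g⁻¹ → θ n' = θ n) →
  ∀ (s : ℂ ≃+* ℂ) (m : ℕ), (∀ ζ : ℂ, ζ ^ Nat.card E = 1 → s ζ = ζ ^ m) → ∀ e : E,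
  (∀ n n' : N, (n' : E) = e * n * e⁻¹ → s (θ n') = θ n) → ∀ σ : Set (Subgroup (E ⧸ N)),
  (Nat.card (GS G N σ) : ℂ) * (wQ G N θ e s σ : ℂ) =
    ∑ z : E, if z * e⁻¹ ∈ G ∧ (z : E ⧸ N) ∈ chainStabilizer σ then
      ∑ x : E, (if x ∈ GS G N σ then FF N θ m x z else 0) else 0

/-- JOB COS. The sum over two cosets of `N`. Proof. Let `ρ` be the representation in `PSpec`,
`L = N ⊔ zpowers x`, `q` the order of `x` modulo `N`, prime to `p`. (1) `ρ` has a unique extension `R`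
to `L` with determinants of `p`-power order: let `u` be a lift of `x` (`t_LFT`, `Lf ρ x u`; `θ` is
`x`-invariant by the second to last hypothesis with `g ∈ G`), `u ^ q` and `ρ (x ^ q)` differ by a
scalar (Schur), which can be made `1`; `u` is then unique up to a `q`-th root of unity `ζ`,
`det (ζ u) = ζ ^ (p ^ j) det u` and `det u ^ q` has `p`-power order, so there is exactly one
choice for which `det u` has `p`-power order. `R (n x ^ i) = ρ n u ^ i`. Let `χ` be its character,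
an extension of `θ` to `L`. (2) `z L z⁻¹ = L` and `χ (z g ^ m z⁻¹) = χ g` for `g ∈ L`: as `m` is
prime to `|E|` (`s` is injective on the roots of unity) there is such a twisted representation of
`L` (`g ↦ χ (z g ^ m z⁻¹) = s (χ (z g z⁻¹))` is the character of a representation `R'` with
determinants `s (det R (z g z⁻¹))` of `p`-power order), its restriction to `N` has the character
`s (θ (z n z⁻¹)) = θ n`, so `R' ≅ R` by the uniqueness in (1). (3) For `g, w ∈ L`: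
`∑_{n ∈ N} χ (g n w n⁻¹) = |N| / θ 1 * χ g * χ w` (Schur). For `x' = x n`, `z' = n' z` we have
`x'⁻¹ z' x'^m z'⁻¹ = x'⁻¹ n' w n'⁻¹`, `w = z x'^m z⁻¹ ∈ L`, so the sum over `n'` is
`χ (x'⁻¹) χ (w) = χ (x'⁻¹) χ (x')` by (2), and `∑_{n ∈ N} χ (x n) χ ((x n)⁻¹) = |N|` by `t_ORT` for
`A = u`, `B = u⁻¹`. (The cosets `N z` and `z N` are equal.) -/
def S_COS : Prop := ∀ (E : Type) [Group E] [Fintype E] (p : ℕ) [Fact p.Prime] (G N : Subgroup E)
  [G.Normal] [N.Normal], N ≤ G → ∀ θ : N → ℂ, PSpec p θ →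
  (∀ g ∈ G, ∀ n n' : N, (n' : E) = g * n * g⁻¹ → θ n' = θ n) →
  ∀ (s : ℂ ≃+* ℂ) (m : ℕ), (∀ ζ : ℂ, ζ ^ Nat.card E = 1 → s ζ = ζ ^ m) → ∀ z : E,
  (∀ n n' : N, (n' : E) = z * n * z⁻¹ → s (θ n') = θ n) → ∀ x ∈ G,
  x⁻¹ * z * x ^ m * z⁻¹ ∈ N → ¬ p ∣ orderOf (x : E ⧸ N) →
  ∑ n : N, ∑ n' : N, FF N θ m (x * n) (n' * z) = (Nat.card N : ℂ)

/-- JOB TOG. Vanishing of the alternating sum over the chains fixed by `x` and `z`. Proof. Let
`U = zpowers (x ^ j)`, `j` the part of the order of `x` prime to `p`, the Sylow `p`-subgroup of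
`zpowers x`; it is contained in `C`, not trivial, and normalised by `x` and by `z` (as `m` is prime to
the order of `x`, `zpowers (x ^ m) = zpowers x`). Toggle the chains with `U` as in
`Y63.KR.Basic.sum_eq_zero` and `W_eq_zero` (`Y63.KR.Pairs`); all chains stay in `C`. -/
def S_TOG : Prop := ∀ (Q : Type) [Group Q] [Finite Q] (p : ℕ) [Fact p.Prime] (C : Subgroup Q)
  (x z : Q) (m : ℕ), x ∈ C → (∀ P : Subgroup Q, P ≤ C → conjSub z P ≤ C) →
  Nat.Coprime m (orderOf x) → z * x ^ m * z⁻¹ = x → p ∣ orderOf x → WC p C {x, z} = 0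

/-- JOB ASM. The alternating sum. Hypotheses of the theorem to be proved: `S_CNT`, `S_COS`, `S_TOG`
(`t_ASM : S_CNT → S_COS → S_TOG → S_ASM`). Proof. By the orbit formula (`orbit_sum` in
`Y63.KR.Basic`; the stabiliser in `G` of `σ` is `GS G N σ`, and `w` depends only on the class of
`σ`) `|G| altQ p G N w = ∑ σ, (-1) ^ |σ| |G_σ| w σ`, the sum over all chains. Insert `S_CNT` and
change the order of summation: `|G| altQ = ∑_{x ∈ G, z ∈ G e} FF N θ m x z * WC p (Gb G N) {x, z}`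
(`x ∈ G_σ` if and only if `x ∈ G` and `x` normalises all members of `σ`). `FF` vanishes unless
`z x ^ m z⁻¹ ∈ x N`; by `S_TOG` only the `x` of order prime to `p` modulo `N` contribute; `WC` depends
only on the cosets of `x`, `z`, so by `S_COS` (the condition on `e` gives the one on `z = g e`, as `θ` is
`G`-invariant) the sum over `x`, `z` in two cosets is `|N| WC p (Gb G N) {x, z}`; finally
`|G| = |N| |Gb G N|`. -/
def S_ASM : Prop := ∀ (E : Type) [Group E] [Fintype E] (p : ℕ) [Fact p.Prime] (G N : Subgroup E)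
  [G.Normal] [N.Normal], N ≤ G → ∀ θ : N → ℂ, PSpec p θ →
  (∀ g ∈ G, ∀ n n' : N, (n' : E) = g * n * g⁻¹ → θ n' = θ n) →
  ∀ (s : ℂ ≃+* ℂ) (m : ℕ), (∀ ζ : ℂ, ζ ^ Nat.card E = 1 → s ζ = ζ ^ m) → ∀ e : E,
  (∀ n n' : N, (n' : E) = e * n * e⁻¹ → s (θ n') = θ n) →
  (Nat.card (Gb G N) : ℤ) * altQ p G N (fun σ => (wQ G N θ e s σ : ℤ)) =
    ∑ᶠ q : (E ⧸ N) × (E ⧸ N), if q.1 ∈ Gb G N ∧ q.2 * (e : E ⧸ N)⁻¹ ∈ Gb G N ∧
        q.2 * q.1 ^ m * q.2⁻¹ = q.1 ∧ ¬ p ∣ orderOf q.1 then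
      WC p (Gb G N) {q.1, q.2} else 0

end Pool.Agent.Q17.TP
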